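import Mathlib
import Pool.Agent.Helper28.HN.Defs

/-!
# The example: definitions and formulas over any algebra over the rationals

`L_r = x_0 y_(r+2) + x_(r+1) y_0 - x_(r+2) y_1` (`r < m`) and, with `n = m + 1`,
`Q = x_0 (x_n y_0 y_1 - x_(n-1) y_0^2 + y_1 (y_1 - y_0) Λ(x)) + x_n^2 (y_1^2 + y_0 y_3)
  + 2 x_3 x_n y_0 (y_1 - y_0)`, `Λ(x) = ∑ λ_(n-i) x_i`, where `λ(s) = κ (s + 1) ∏_(2 ≤ b ≤ m) (s - b)`, `λ(1) = 1`.
-/

namespace Pool.Agent.Helper60.HN

open MvPolynomial Pool.Agent.Helper28.HN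

/-- The polynomial `(s + 1) ∏ (s - b)`, `2 ≤ b ≤ m`. -/
noncomputable def mu (m : ℕ) : Polynomial ℚ :=
  (Polynomial.X + 1) * ∏ b ∈ Finset.Icc 2 m, (Polynomial.X - Polynomial.C (b : ℚ))

/-- The polynomial `λ`. -/
noncomputable def lam (m : ℕ) : Polynomial ℚ := Polynomial.C ((mu m).eval 1)⁻¹ * mu m

/-- The coordinate number `j`. -/
def ix (m j : ℕ) : I m := Fin.ofNat (m + 2) j

/-- A decomposable tensor. -/
def tn {m : ℕ} (α β γ δ : I m → ℚ) (p : I m × I m × I m × I m) : ℚ :=
  α p.1 * β p.2.1 * (γ p.2.2.1 * δ p.2.2.2)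

/-- The coordinate vector. -/
def sg {m : ℕ} (i : I m) : I m → ℚ := Pi.single i 1

/-- The coefficients of the linear form `Λ`. -/
noncomputable def La (m : ℕ) : I m → ℚ := fun i => (lam m).coeff (m + 1 - i.val)

/-- The coefficients of the example. -/
noncomputable def c0 (m : ℕ) : Ix m → ℚ
  | .inl (r, i, j) => sg 0 i * sg r.succ.succ j + sg r.castSucc.succ i * sg 0 j - sg r.succ.succ i * sg 1 j
  | .inr p =>
    tn (sg 0) (sg (ix m (m + 1))) (sg 0) (sg 1) p - tn (sg 0) (sg (ix m m)) (sg 0) (sg 0) p +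
    (tn (sg 0) (La m) (sg 1) (sg 1) p - tn (sg 0) (La m) (sg 0) (sg 1) p) +
    (tn (sg (ix m (m + 1))) (sg (ix m (m + 1))) (sg 1) (sg 1) p +
      tn (sg (ix m (m + 1))) (sg (ix m (m + 1))) (sg 0) (sg (ix m 3)) p) +
    2 * (tn (sg (ix m 3)) (sg (ix m (m + 1))) (sg 0) (sg 1) p - tn (sg (ix m 3)) (sg (ix m (m + 1))) (sg 0) (sg 0) p)

/-- The point of the example. -/
noncomputable def k0 (m : ℕ) : Un m → ℚ
  | .inl _ => 0
  | .inr a => if a = Fin.last (m + 1) then -1 else (a.val : ℚ)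

section formulas

variable {m : ℕ} {S : Type*} [CommRing S] [Algebra ℚ S]

/-- The coefficients in `S`. -/
noncomputable def cS (m : ℕ) (S : Type*) [CommRing S] [Algebra ℚ S] : Ix m → S := fun e => algebraMap ℚ S (c0 m e)

/-- A linear form. -/
noncomputable def li (α : I m → ℚ) (x : I m → S) : S := ∑ i, algebraMap ℚ S (α i) * x i

theorem li_sg (i : I m) (x : I m → S) : li (sg i) x = x i := by
  unfold li sg
  rw [Finset.sum_eq_single i]
  · simp
  · intro b _ hb
    rw [Pi.single_eq_of_ne hb, map_zero, zero_mul]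
  · intro h
    exact absurd (Finset.mem_univ _) h

theorem lf_ex (r : Fin m) (x y : I m → S) :
    lf (cS m S) r x y = x 0 * y r.succ.succ + x r.castSucc.succ * y 0 - x r.succ.succ * y 1 := by
  have h : ∀ (α β : I m → ℚ), ∑ i, ∑ j, algebraMap ℚ S (α i * β j) * x i * y j = li α x * li β y := by
    intro α β
    unfold li
    rw [Finset.sum_mul_sum]
    refine Finset.sum_congr rfl fun i _ => Finset.sum_congr rfl fun j _ => ?_
    rw [map_mul]
    ring
  have h2 : lf (cS m S) r x y = (∑ i, ∑ j, algebraMap ℚ S (sg 0 i * sg r.succ.succ j) * x i * y j) +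
      (∑ i, ∑ j, algebraMap ℚ S (sg r.castSucc.succ i * sg 0 j) * x i * y j) -
      ∑ i, ∑ j, algebraMap ℚ S (sg r.succ.succ i * sg 1 j) * x i * y j := by
    unfold lf cS c0
    rw [← Finset.sum_add_distrib, ← Finset.sum_sub_distrib]
    refine Finset.sum_congr rfl fun i _ => ?_
    rw [← Finset.sum_add_distrib, ← Finset.sum_sub_distrib]
    refine Finset.sum_congr rfl fun j _ => ?_
    rw [map_sub, map_add]
    ring
  rw [h2, h, h, h]
  simp only [li_sg]

/-- The polarisation of a decomposable tensor. -/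
noncomputable def qt (t : I m × I m × I m × I m → ℚ) (x x' y y' : I m → S) : S :=
  ∑ i, ∑ j, ∑ k, ∑ l, algebraMap ℚ S (t (i, j, k, l) + t (j, i, k, l) + t (i, j, l, k) + t (j, i, l, k)) *
    x i * x' j * y k * y' l

theorem qt_add (t t' : I m × I m × I m × I m → ℚ) (x x' y y' : I m → S) :
    qt (fun p => t p + t' p) x x' y y' = qt t x x' y y' + qt t' x x' y y' := by
  unfold qt
  simp only [← Finset.sum_add_distrib]
  refine Finset.sum_congr rfl fun i _ => Finset.sum_congr rfl fun j _ => Finset.sum_congr rfl fun k _ =>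
    Finset.sum_congr rfl fun l _ => ?_
  simp only [map_add]
  ring

theorem qt_sub (t t' : I m × I m × I m × I m → ℚ) (x x' y y' : I m → S) :
    qt (fun p => t p - t' p) x x' y y' = qt t x x' y y' - qt t' x x' y y' := by
  unfold qt
  simp only [← Finset.sum_sub_distrib]
  refine Finset.sum_congr rfl fun i _ => Finset.sum_congr rfl fun j _ => Finset.sum_congr rfl fun k _ =>
    Finset.sum_congr rfl fun l _ => ?_
  simp only [map_add, map_sub]
  ring

theorem qt_two (t : I m × I m × I m × I m → ℚ) (x x' y y' : I m → S) :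
    qt (fun p => 2 * t p) x x' y y' = 2 * qt t x x' y y' := by
  have h : (fun p => 2 * t p) = fun p => t p + t p := by
    funext p
    ring
  rw [h, qt_add, two_mul]

theorem qt_tn (α β γ δ : I m → ℚ) (x x' y y' : I m → S) :
    qt (tn α β γ δ) x x' y y' = (li α x * li β x' + li β x * li α x') * (li γ y * li δ y' + li δ y * li γ y') := by
  have h : ∀ (a b g d : I m → ℚ), ∑ i, ∑ j, ∑ k, ∑ l, algebraMap ℚ S (a i * b j * (g k * d l)) *
      x i * x' j * y k * y' l = li a x * li b x' * (li g y * li d y') := by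
    intro a b g d
    have h1 : ∀ i j, ∑ k, ∑ l, algebraMap ℚ S (a i * b j * (g k * d l)) * x i * x' j * y k * y' l =
        algebraMap ℚ S (a i) * x i * (algebraMap ℚ S (b j) * x' j) * (li g y * li d y') := by
      intro i j
      unfold li
      rw [Finset.sum_mul_sum, Finset.mul_sum]
      refine Finset.sum_congr rfl fun k _ => ?_
      rw [Finset.mul_sum]
      refine Finset.sum_congr rfl fun l _ => ?_
      rw [map_mul, map_mul, map_mul]
      ring
    have h2 : ∑ i, ∑ j, ∑ k, ∑ l, algebraMap ℚ S (a i * b j * (g k * d l)) * x i * x' j * y k * y' l =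
        ∑ i, ∑ j, algebraMap ℚ S (a i) * x i * (algebraMap ℚ S (b j) * x' j) * (li g y * li d y') :=
      Finset.sum_congr rfl fun i _ => Finset.sum_congr rfl fun j _ => h1 i j
    rw [h2]
    have h3 : li a x * li b x' = ∑ i, ∑ j, algebraMap ℚ S (a i) * x i * (algebraMap ℚ S (b j) * x' j) := by
      unfold li
      rw [Finset.sum_mul_sum]
    rw [h3, Finset.sum_mul]
    exact Finset.sum_congr rfl fun i _ => (Finset.sum_mul _ _ _).symm
  have h4 : qt (tn α β γ δ) x x' y y' =
      (∑ i, ∑ j, ∑ k, ∑ l, algebraMap ℚ S (α i * β j * (γ k * δ l)) * x i * x' j * y k * y' l) +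
      (∑ i, ∑ j, ∑ k, ∑ l, algebraMap ℚ S (β i * α j * (γ k * δ l)) * x i * x' j * y k * y' l) +
      (∑ i, ∑ j, ∑ k, ∑ l, algebraMap ℚ S (α i * β j * (δ k * γ l)) * x i * x' j * y k * y' l) +
      (∑ i, ∑ j, ∑ k, ∑ l, algebraMap ℚ S (β i * α j * (δ k * γ l)) * x i * x' j * y k * y' l) := by
    unfold qt tn
    simp only [← Finset.sum_add_distrib]
    refine Finset.sum_congr rfl fun i _ => Finset.sum_congr rfl fun j _ => Finset.sum_congr rfl fun k _ =>
      Finset.sum_congr rfl fun l _ => ?_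
    have e1 : α j * β i = β i * α j := mul_comm _ _
    have e2 : γ l * δ k = δ k * γ l := mul_comm _ _
    rw [e1, e2, map_add, map_add, map_add]
    ring
  rw [h4, h, h, h, h]
  ring

theorem qf_eq_qt (x x' y y' : I m → S) : qf (cS m S) x x' y y' = qt (fun p => c0 m (.inr p)) x x' y y' := by
  unfold qf qt pq cS
  refine Finset.sum_congr rfl fun i _ => Finset.sum_congr rfl fun j _ => Finset.sum_congr rfl fun k _ =>
    Finset.sum_congr rfl fun l _ => ?_
  simp only [map_add]

theorem qf_ex (x x' y y' : I m → S) :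
    qf (cS m S) x x' y y' =
      (x 0 * x' (ix m (m + 1)) + x (ix m (m + 1)) * x' 0) * (y 0 * y' 1 + y 1 * y' 0) -
      (x 0 * x' (ix m m) + x (ix m m) * x' 0) * (y 0 * y' 0 + y 0 * y' 0) +
      (x 0 * li (La m) x' + li (La m) x * x' 0) * (y 1 * y' 1 + y 1 * y' 1 - (y 0 * y' 1 + y 1 * y' 0)) +
      2 * (x (ix m (m + 1)) * x' (ix m (m + 1))) *
        (y 1 * y' 1 + y 1 * y' 1 + (y 0 * y' (ix m 3) + y (ix m 3) * y' 0)) +
      2 * (x (ix m 3) * x' (ix m (m + 1)) + x (ix m (m + 1)) * x' (ix m 3)) *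
        (y 0 * y' 1 + y 1 * y' 0 - (y 0 * y' 0 + y 0 * y' 0)) := by
  rw [qf_eq_qt]
  unfold c0
  rw [qt_add, qt_add, qt_add, qt_sub, qt_sub, qt_add, qt_two, qt_sub]
  simp only [qt_tn, li_sg]
  ring

end formulas

end Pool.Agent.Helper60.HN
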