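import Mathlib
import Pool.Agent.Helper60.HN.ExDefs

/-!
# The example: the geometry over any algebra over the rationals
-/

namespace Pool.Agent.Helper60.HN

open MvPolynomial Pool.Agent.Helper28.HN

variable {m : ℕ} {S : Type*} [CommRing S] [Algebra ℚ S]

theorem Mx_ex (x : I m → S) (h0 : x 0 = 1) : Mx (cS m S) x = 1 := by
  ext r b
  unfold Mx
  rw [lf_ex, h0]
  have h1 : (Pi.single b.succ.succ 1 : I m → S) 0 = 0 := Pi.single_eq_of_ne (Fin.succ_ne_zero _).symm _
  have h2 : (Pi.single b.succ.succ 1 : I m → S) 1 = 0 := by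
    refine Pi.single_eq_of_ne ?_ _
    intro h
    have := congrArg Fin.val h
    simp at this
  rw [h1, h2, Matrix.one_apply]
  by_cases h : r = b
  · subst h
    simp
  · rw [if_neg h, Pi.single_eq_of_ne]
    · ring
    · intro h3
      exact h (Fin.succ_injective _ (Fin.succ_injective _ h3))

theorem Y0_ex (x : I m → S) (h0 : x 0 = 1) :
    Y0 (cS m S) x = Fin.cons 1 (Fin.cons 0 fun r => - x r.castSucc.succ) := by
  unfold Y0
  rw [Mx_ex x h0, Matrix.det_one, Matrix.adjugate_one]
  refine congrArg (fun f : Fin (m + 1) → S => (Fin.cons 1 f : I m → S)) ?_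
  refine congrArg (fun f : Fin m → S => (Fin.cons 0 f : Fin (m + 1) → S)) ?_
  funext r
  rw [Matrix.one_mulVec, Pi.neg_apply, lf_ex]
  have h1 : (Pi.single 0 1 : I m → S) r.succ.succ = 0 := Pi.single_eq_of_ne (Fin.succ_ne_zero _) _
  have h2 : (Pi.single 0 1 : I m → S) 1 = 0 := Pi.single_eq_of_ne (by simp) _
  have h3 : (Pi.single 0 1 : I m → S) 0 = 1 := Pi.single_eq_same _ _
  rw [h1, h2, h3]
  ring

theorem Y1_ex (x : I m → S) (h0 : x 0 = 1) :
    Y1 (cS m S) x = Fin.cons 0 (Fin.cons 1 fun r => x r.succ.succ) := by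
  unfold Y1
  rw [Mx_ex x h0, Matrix.det_one, Matrix.adjugate_one]
  refine congrArg (fun f : Fin (m + 1) → S => (Fin.cons 0 f : I m → S)) ?_
  refine congrArg (fun f : Fin m → S => (Fin.cons 1 f : Fin (m + 1) → S)) ?_
  funext r
  rw [Matrix.one_mulVec, Pi.neg_apply, lf_ex]
  have h1 : (Pi.single 1 1 : I m → S) r.succ.succ = 0 := by
    refine Pi.single_eq_of_ne ?_ _
    intro h
    have := congrArg Fin.val h
    simp at this
  have h2 : (Pi.single 1 1 : I m → S) 1 = 1 := Pi.single_eq_same _ _
  have h3 : (Pi.single 1 1 : I m → S) 0 = 0 := Pi.single_eq_of_ne (by simp) _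
  rw [h1, h2, h3]
  ring

theorem yh_ex (x : I m → S) (h0 : x 0 = 1) (z : S) :
    yh (cS m S) x z = Fin.cons 1 (Fin.cons z fun r => z * x r.succ.succ - x r.castSucc.succ) := by
  funext i
  unfold yh
  rw [Y0_ex x h0, Y1_ex x h0]
  refine Fin.cases ?_ (fun j => Fin.cases ?_ (fun r => ?_) j) i
  · simp
  · simp
  · simp only [Fin.cons_succ]
    ring

theorem ix_val {j : ℕ} (h : j ≤ m + 1) : (ix m j).val = j := by
  unfold ix
  rw [Fin.val_ofNat]
  exact Nat.mod_eq_of_lt (by omega)

theorem ix_eq {j : ℕ} (h : j ≤ m + 1) : ix m j = ⟨j, by omega⟩ := Fin.ext (ix_val h)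

theorem yh_zero (x : I m → S) (h0 : x 0 = 1) (z : S) : yh (cS m S) x z 0 = 1 := by
  rw [yh_ex x h0]
  rfl

theorem yh_one (x : I m → S) (h0 : x 0 = 1) (z : S) : yh (cS m S) x z 1 = z := by
  rw [yh_ex x h0]
  rfl

theorem ix_succ {j : ℕ} (h : j < m) : (⟨j, h⟩ : Fin m).succ.succ = ix m (j + 2) := by
  rw [ix_eq (by omega)]
  rfl

theorem ix_cast {j : ℕ} (h : j < m) : (⟨j, h⟩ : Fin m).castSucc.succ = ix m (j + 1) := by
  rw [ix_eq (by omega)]
  rfl

theorem yh_three (hm : 2 ≤ m) (x : I m → S) (h0 : x 0 = 1) (z : S) :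
    yh (cS m S) x z (ix m 3) = z * x (ix m 3) - x (ix m 2) := by
  rw [yh_ex x h0]
  have h1 := ix_succ (m := m) (j := 1) (by omega)
  rw [← h1]
  simp only [Fin.cons_succ]
  rw [ix_cast (m := m) (j := 1) (by omega)]

theorem Nx_ex (y : I m → S) (r i : Fin m) :
    Nx (cS m S) y r i = (if i = r then y 0 else 0) - if i.val = r.val + 1 then y 1 else 0 := by
  unfold Nx
  rw [lf_ex]
  have h1 : (Pi.single i.castSucc.succ 1 : I m → S) 0 = 0 := Pi.single_eq_of_ne (Fin.succ_ne_zero _).symm _
  have h2 : (Pi.single i.castSucc.succ 1 : I m → S) r.castSucc.succ = if i = r then 1 else 0 := by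
    rw [Pi.single_apply]
    by_cases h : i = r
    · rw [if_pos h, h, if_pos rfl]
    · rw [if_neg h, if_neg]
      intro h3
      exact h (Fin.castSucc_injective _ (Fin.succ_injective _ h3)).symm
  have h3 : (Pi.single i.castSucc.succ 1 : I m → S) r.succ.succ = if i.val = r.val + 1 then 1 else 0 := by
    rw [Pi.single_apply]
    by_cases h : i.val = r.val + 1
    · rw [if_pos h, if_pos]
      refine Fin.ext ?_
      simp [h]
    · rw [if_neg h, if_neg]
      intro h4
      have := congrArg Fin.val h4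
      simp at this
      omega
  rw [h1, h2, h3]
  split_ifs <;> ring

theorem det_Nx (y : I m → S) (h : y 0 = 1) : (Nx (cS m S) y).det = 1 := by
  rw [Matrix.det_of_isUpperTriangular]
  · refine Finset.prod_eq_one fun i _ => ?_
    rw [Nx_ex, if_pos rfl, if_neg (by omega), h, sub_zero]
  · intro r i hir
    rw [Nx_ex]
    have h1 : i < r := hir
    have h2 : i.val < r.val := h1
    rw [if_neg (fun h3 => by rw [h3] at h2; omega), if_neg (by omega), sub_zero]

theorem vh_ex (y : I m → S) (h : y 0 = 1) : vh (cS m S) y = fun i => y 1 ^ (m - i.val) := by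
  have hN : (Nx (cS m S) y).mulVec (fun i : Fin m => y 1 ^ (m - i.val)) =
      - fun r => lf (cS m S) r (Pi.single (Fin.last (m + 1)) 1) y := by
    funext r
    rw [Pi.neg_apply, lf_ex]
    have h1 : (Pi.single (Fin.last (m + 1)) 1 : I m → S) 0 = 0 := Pi.single_eq_of_ne (by simp) _
    have h2 : (Pi.single (Fin.last (m + 1)) 1 : I m → S) r.castSucc.succ = 0 := by
      refine Pi.single_eq_of_ne ?_ _
      intro h4
      have := congrArg Fin.val h4
      simp at this
      omega
    rw [h1, h2, Matrix.mulVec, dotProduct]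
    have h5 : ∀ i : Fin m, Nx (cS m S) y r i * y 1 ^ (m - i.val) =
        (if i = r then y 1 ^ (m - i.val) else 0) - if i.val = r.val + 1 then y 1 ^ (m - r.val) else 0 := by
      intro i
      rw [Nx_ex, h, sub_mul]
      congr 1
      · split_ifs <;> ring
      · split_ifs with h6
        · rw [← pow_succ']
          congr 1
          have := i.isLt
          omega
        · ring
    rw [Finset.sum_congr rfl fun i _ => h5 i, Finset.sum_sub_distrib, Finset.sum_ite_eq' Finset.univ r,
      if_pos (Finset.mem_univ _)]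
    by_cases h6 : r.val + 1 < m
    · rw [Finset.sum_eq_single (⟨r.val + 1, h6⟩ : Fin m)]
      · rw [if_pos rfl, Pi.single_eq_of_ne]
        · ring
        · intro h4
          have := congrArg Fin.val h4
          simp at this
          omega
      · intro b _ hb
        rw [if_neg]
        intro h7
        exact hb (Fin.ext h7)
      · intro h7
        exact absurd (Finset.mem_univ _) h7
    · have h8 : m - r.val = 1 := by
        have := r.isLt
        omega
      rw [Finset.sum_eq_zero, h8, pow_one]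
      · have h9 : r.succ.succ = Fin.last (m + 1) := by
          refine Fin.ext ?_
          have := r.isLt
          simp
          omega
        rw [h9, Pi.single_eq_same]
        ring
      · intro b _
        rw [if_neg]
        have := b.isLt
        omega
  have h1 : - ((Nx (cS m S) y).adjugate.mulVec fun r => lf (cS m S) r (Pi.single (Fin.last (m + 1)) 1) y) =
      fun i : Fin m => y 1 ^ (m - i.val) := by
    rw [← Matrix.mulVec_neg, ← hN, Matrix.mulVec_mulVec, Matrix.adjugate_mul, det_Nx y h, one_smul,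
      Matrix.one_mulVec]
  unfold vh
  rw [h1, det_Nx y h]
  funext i
  refine Fin.lastCases ?_ (fun j => ?_) i
  · rw [Fin.snoc_last]
    simp
  · rw [Fin.snoc_castSucc]
    rfl

omit [Algebra ℚ S] in
theorem xh_zero (c : Ix m → S) (y : I m → S) : xh c y 0 = 0 := rfl

theorem xh_ix (y : I m → S) (h : y 0 = 1) {j : ℕ} (h1 : 1 ≤ j) (h2 : j ≤ m + 1) :
    xh (cS m S) y (ix m j) = y 1 ^ (m + 1 - j) := by
  have h3 : ix m j = (⟨j - 1, by omega⟩ : Fin (m + 1)).succ := by
    rw [ix_eq h2]
    refine Fin.ext ?_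
    simp
    omega
  unfold xh
  rw [h3, Fin.cons_succ, vh_ex y h]
  show y 1 ^ (m - (j - 1)) = _
  congr 1
  omega

theorem li_xh (hm : 1 ≤ m) (y : I m → S) (h : y 0 = 1) : li (La m) (xh (cS m S) y) = Polynomial.aeval (y 1) (lam m) := by
  have hdeg : (lam m).natDegree < m + 1 := by
    unfold lam mu
    refine lt_of_le_of_lt (Polynomial.natDegree_C_mul_le _ _) ?_
    refine lt_of_le_of_lt Polynomial.natDegree_mul_le ?_
    have h1 : (Polynomial.X + 1 : Polynomial ℚ).natDegree = 1 := by
      have := Polynomial.natDegree_X_add_C (1 : ℚ)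
      rwa [map_one] at this
    rw [h1, Polynomial.natDegree_prod_of_monic _ _ fun b _ => Polynomial.monic_X_sub_C _]
    have h2 : ∑ b ∈ Finset.Icc 2 m, (Polynomial.X - Polynomial.C (b : ℚ)).natDegree = m + 1 - 2 := by
      rw [Finset.sum_congr rfl fun (b : ℕ) _ => Polynomial.natDegree_X_sub_C (b : ℚ), Finset.sum_const, smul_eq_mul,
        mul_one, Nat.card_Icc]
    rw [h2]
    omega
  rw [Polynomial.aeval_eq_sum_range' hdeg, li, Fin.sum_univ_succ, xh_zero, mul_zero, zero_add]
  have h2 : ∀ i : Fin (m + 1), algebraMap ℚ S (La m i.succ) * xh (cS m S) y i.succ =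
      (lam m).coeff (m - i.val) • y 1 ^ (m - i.val) := by
    intro i
    unfold xh La
    rw [Fin.cons_succ, vh_ex y h, Algebra.smul_def]
    have h3 : m + 1 - i.succ.val = m - i.val := by
      simp
    rw [h3]
  rw [Finset.sum_congr rfl fun i _ => h2 i, Fin.sum_univ_eq_sum_range (fun i => (lam m).coeff (m - i) • y 1 ^ (m - i))]
  exact Finset.sum_range_reflect (fun i => (lam m).coeff i • y 1 ^ i) (m + 1)

end Pool.Agent.Helper60.HN
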