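import Mathlib
import Pool.Agent.Helper60.HN.ExGeo

/-!
# The example: the equations over any algebra over the rationals
-/

namespace Pool.Agent.Helper60.HN

open MvPolynomial Pool.Agent.Helper28.HN

variable {m : ℕ} {S : Type*} [CommRing S] [Algebra ℚ S]

/-- The value of `λ`. -/
noncomputable def lm (m : ℕ) (z : S) : S := Polynomial.aeval z (lam m)

theorem xh_last (y : I m → S) (h : y 0 = 1) : xh (cS m S) y (ix m (m + 1)) = 1 := by
  rw [xh_ix y h (by omega) le_rfl]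
  simp

theorem xh_m (hm : 1 ≤ m) (y : I m → S) (h : y 0 = 1) : xh (cS m S) y (ix m m) = y 1 := by
  rw [xh_ix y h hm (by omega)]
  have : m + 1 - m = 1 := by omega
  rw [this, pow_one]

theorem xh_three (hm : 2 ≤ m) (y : I m → S) (h : y 0 = 1) : xh (cS m S) y (ix m 3) = y 1 ^ (m - 2) := by
  rw [xh_ix y h (by omega) (by omega)]
  congr 1

theorem psh_ex (hm : 2 ≤ m) (x : I m → S) (h0 : x 0 = 1) (z : S) :
    psh (cS m S) x z = 2 * (z * (z - 1) * lm m z) + 4 * (x (ix m (m + 1)) * (z ^ 2 + (z * x (ix m 3) - x (ix m 2)))) +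
      4 * ((x (ix m 3) + x (ix m (m + 1)) * z ^ (m - 2)) * (z - 1)) := by
  have hy := yh_zero x h0 z
  unfold psh
  rw [qf_ex, xh_zero, xh_last _ hy, xh_m (by omega) _ hy, xh_three hm _ hy, li_xh (by omega) _ hy, yh_three hm x h0,
    hy, yh_one x h0, h0]
  unfold lm
  ring

theorem kah_ex (hm : 2 ≤ m) (x : I m → S) (h0 : x 0 = 1) (z : S) :
    kah (cS m S) x z = 4 * (z ^ 2 + (z * x (ix m 3) - x (ix m 2))) + 8 * (z ^ (m - 2) * (z - 1)) := by
  have hy := yh_zero x h0 z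
  unfold kah
  rw [qf_ex, xh_zero, xh_last _ hy, xh_m (by omega) _ hy, xh_three hm _ hy, li_xh (by omega) _ hy, yh_three hm x h0,
    hy, yh_one x h0]
  ring

theorem Fh_ex (hm : 2 ≤ m) (x : I m → S) (h0 : x 0 = 1) (z : S) :
    Fh (cS m S) x z = 4 * (x (ix m (m + 1)) * z - x (ix m m) + li (La m) x * (z ^ 2 - z) +
      x (ix m (m + 1)) ^ 2 * (z ^ 2 + (z * x (ix m 3) - x (ix m 2))) +
      2 * (x (ix m 3) * x (ix m (m + 1))) * (z - 1)) := by
  unfold Fh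
  rw [qf_ex, yh_three hm x h0, yh_zero x h0, yh_one x h0, h0]
  ring

theorem Y1_zero (x : I m → S) (h0 : x 0 = 1) : Y1 (cS m S) x 0 = 0 := by
  rw [Y1_ex x h0]
  rfl

theorem Y1_one (x : I m → S) (h0 : x 0 = 1) : Y1 (cS m S) x 1 = 1 := by
  rw [Y1_ex x h0]
  rfl

theorem Y0_zero (x : I m → S) (h0 : x 0 = 1) : Y0 (cS m S) x 0 = 1 := by
  rw [Y0_ex x h0]
  rfl

theorem Y0_one (x : I m → S) (h0 : x 0 = 1) : Y0 (cS m S) x 1 = 0 := by
  rw [Y0_ex x h0]
  rfl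

theorem Y1_three (hm : 2 ≤ m) (x : I m → S) (h0 : x 0 = 1) : Y1 (cS m S) x (ix m 3) = x (ix m 3) := by
  have h1 := ix_succ (m := m) (j := 1) (by omega)
  rw [Y1_ex x h0, ← h1]
  simp only [Fin.cons_succ]

theorem Y0_three (hm : 2 ≤ m) (x : I m → S) (h0 : x 0 = 1) : Y0 (cS m S) x (ix m 3) = - x (ix m 2) := by
  have h1 := ix_succ (m := m) (j := 1) (by omega)
  rw [Y0_ex x h0, ← h1]
  simp only [Fin.cons_succ]
  rw [ix_cast (m := m) (j := 1) (by omega)]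

theorem Ah_ex (hm : 2 ≤ m) (x : I m → S) (h0 : x 0 = 1) :
    Ah (cS m S) x = 4 * li (La m) x + 4 * x (ix m (m + 1)) ^ 2 := by
  unfold Ah
  rw [qf_ex, Y1_three hm x h0, Y1_zero x h0, Y1_one x h0, h0]
  ring

theorem Bh_ex (hm : 2 ≤ m) (x : I m → S) (h0 : x 0 = 1) :
    Bh (cS m S) x = 2 * x (ix m (m + 1)) - 2 * li (La m) x + 2 * (x (ix m (m + 1)) ^ 2 * x (ix m 3)) +
      4 * (x (ix m 3) * x (ix m (m + 1))) := by
  unfold Bh
  rw [qf_ex, Y1_three hm x h0, Y1_zero x h0, Y1_one x h0, Y0_three hm x h0, Y0_zero x h0, Y0_one x h0, h0]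
  ring

/-- The direction at `z`. -/
theorem xz_eq (u : Fin (m + 1) → S) (z : S) : xz (cS m S) u z = xh (cS m S) (yh (cS m S) (aff u) z) := rfl

theorem qh_ex (hm : 2 ≤ m) (u : Fin (m + 1) → S) (s z : S) :
    ∃ t : S, qh (cS m S) (aff u) (xz (cS m S) u s) z = 4 * (z - s + z * (z - 1) * lm m s) +
      8 * (aff u (ix m (m + 1)) * (z ^ 2 + (z * aff u (ix m 3) - aff u (ix m 2)))) +
      8 * ((aff u (ix m 3) + aff u (ix m (m + 1)) * s ^ (m - 2)) * (z - 1)) +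
      aff u (ix m (m + 1)) ^ 2 * t := by
  have h0 : (aff u : I m → S) 0 = 1 := rfl
  have hs := yh_zero (aff u) h0 s
  have h1 := ix_succ (m := m) (j := 1) (by omega)
  unfold qh
  rw [Mx_ex _ h0, Matrix.det_one, qf_ex (S := S) (m := m) (aff u) (aff u), qf_ex, xz_eq, xh_zero, xh_last _ hs,
    xh_m (by omega) _ hs, xh_three hm _ hs, li_xh (by omega) _ hs, yh_three hm _ h0, yh_zero _ h0, yh_one _ h0,
    yh_one _ h0, h0]
  generalize hv : (Fin.cons 0 (Fin.cons 0 (-((1 : Matrix (Fin m) (Fin m) S).adjugate.mulVec fun r =>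
    lf (cS m S) r (xh (cS m S) (yh (cS m S) (aff u) s)) (yh (cS m S) (aff u) z)))) : I m → S) = v
  have e0 : v 0 = 0 := by
    rw [← hv]
    rfl
  have e1 : v 1 = 0 := by
    rw [← hv]
    rfl
  rw [e0, e1]
  refine ⟨4 * v (ix m 3), ?_⟩
  unfold lm
  ring

end Pool.Agent.Helper60.HN
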