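import Mathlib
import Pool.Agent.Helper60.HN.ExEq

/-!
# The example: the polynomial `λ` and the roots
-/

namespace Pool.Agent.Helper60.HN

open MvPolynomial Pool.Agent.Helper28.HN

/-- The roots. -/
noncomputable def zr (m : ℕ) (a : Fin (m + 2)) : ℚ := if a = Fin.last (m + 1) then -1 else (a.val : ℚ)

theorem k0_inr (m : ℕ) (a : Fin (m + 2)) : k0 m (.inr a) = zr m a := rfl

theorem zr_last (m : ℕ) : zr m (Fin.last (m + 1)) = -1 := if_pos rfl

theorem zr_cast (m : ℕ) (a : Fin (m + 1)) : zr m a.castSucc = a.val := by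
  unfold zr
  rw [if_neg (Fin.castSucc_lt_last a).ne]
  rfl

theorem zr_zero (m : ℕ) : zr m 0 = 0 := by
  have := zr_cast m 0
  rw [Fin.castSucc_zero] at this
  rw [this]
  simp

theorem zr_one (m : ℕ) (hm : 1 ≤ m) : zr m 1 = 1 := by
  have h := zr_cast m ⟨1, by omega⟩
  have h1 : (⟨1, by omega⟩ : Fin (m + 1)).castSucc = (1 : Fin (m + 2)) := Fin.ext (by simp)
  rw [h1] at h
  rw [h]
  simp

theorem zr_inj (m : ℕ) : Function.Injective (zr m) := by
  intro a b
  refine Fin.lastCases ?_ (fun a => ?_) a <;> refine Fin.lastCases ?_ (fun b => ?_) b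
  · intro _
    rfl
  · intro h
    rw [zr_last, zr_cast] at h
    have : (0 : ℚ) ≤ (b.val : ℚ) := Nat.cast_nonneg _
    linarith
  · intro h
    rw [zr_last, zr_cast] at h
    have : (0 : ℚ) ≤ (a.val : ℚ) := Nat.cast_nonneg _
    linarith
  · intro h
    rw [zr_cast, zr_cast] at h
    have : a.val = b.val := by exact_mod_cast h
    rw [Fin.ext this]

/-- The product of `z - z_a`. -/
noncomputable def pz (m : ℕ) : Polynomial ℚ := ∏ a : Fin (m + 2), (Polynomial.X - Polynomial.C (zr m a))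

theorem pz_eq (m : ℕ) (hm : 1 ≤ m) : pz m = Polynomial.X * (Polynomial.X - 1) * mu m := by
  unfold pz mu
  rw [Fin.prod_univ_castSucc, zr_last]
  have h1 : ∏ a : Fin (m + 1), (Polynomial.X - Polynomial.C (zr m a.castSucc)) =
      ∏ b ∈ Finset.range (m + 1), (Polynomial.X - Polynomial.C (b : ℚ)) := by
    rw [Finset.prod_range]
    exact Finset.prod_congr rfl fun a _ => by rw [zr_cast]
  have h2 : ∏ b ∈ Finset.range (m + 1), (Polynomial.X - Polynomial.C (b : ℚ)) =
      Polynomial.X * ((Polynomial.X - 1) * ∏ b ∈ Finset.Icc 2 m, (Polynomial.X - Polynomial.C (b : ℚ))) := by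
    rw [Finset.range_eq_Ico, Finset.prod_eq_prod_Ico_succ_bot (by omega), Finset.prod_eq_prod_Ico_succ_bot (by omega)]
    have h3 : Finset.Ico (0 + 1 + 1) (m + 1) = Finset.Icc 2 m := by
      ext b
      simp only [Finset.mem_Ico, Finset.mem_Icc]
      omega
    rw [h3]
    simp
  rw [h1, h2, map_neg, map_one]
  ring

theorem mu_one_ne (m : ℕ) : (mu m).eval 1 ≠ 0 := by
  unfold mu
  rw [Polynomial.eval_mul, Polynomial.eval_prod]
  refine mul_ne_zero (by simp) (Finset.prod_ne_zero_iff.2 fun b hb => ?_)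
  rw [Finset.mem_Icc] at hb
  have : (2 : ℚ) ≤ b := by exact_mod_cast hb.1
  rw [Polynomial.eval_sub, Polynomial.eval_X, Polynomial.eval_C]
  intro h
  linarith

theorem lam_one (m : ℕ) : (lam m).eval 1 = 1 := by
  unfold lam
  rw [Polynomial.eval_mul, Polynomial.eval_C]
  exact inv_mul_cancel₀ (mu_one_ne m)

theorem pz_root (m : ℕ) (a : Fin (m + 2)) : (pz m).eval (zr m a) = 0 := by
  unfold pz
  rw [Polynomial.eval_prod]
  exact Finset.prod_eq_zero (Finset.mem_univ a) (by simp)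

theorem pz_der (m : ℕ) (a : Fin (m + 2)) : (pz m).derivative.eval (zr m a) ≠ 0 := by
  have h : (pz m).Separable := Polynomial.separable_prod_X_sub_C_iff.2 (zr_inj m)
  have h1 := h.aeval_derivative_ne_zero (x := zr m a) (by rw [Polynomial.coe_aeval_eq_eval]; exact pz_root m a)
  rwa [Polynomial.coe_aeval_eq_eval] at h1

theorem mu_root (m : ℕ) (hm : 1 ≤ m) {a : Fin (m + 2)} (h0 : zr m a ≠ 0) (h1 : zr m a ≠ 1) :
    (mu m).eval (zr m a) = 0 := by
  have h2 := pz_root m a
  rw [pz_eq m hm, Polynomial.eval_mul, Polynomial.eval_mul, Polynomial.eval_X, Polynomial.eval_sub,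
    Polynomial.eval_X, Polynomial.eval_one] at h2
  exact (mul_eq_zero.1 h2).resolve_left (mul_ne_zero h0 (sub_ne_zero.2 h1))

theorem lam_root (m : ℕ) (hm : 1 ≤ m) {a : Fin (m + 2)} (h0 : zr m a ≠ 0) (h1 : zr m a ≠ 1) :
    (lam m).eval (zr m a) = 0 := by
  unfold lam
  rw [Polynomial.eval_mul, mu_root m hm h0 h1, mul_zero]

/-- `z (z - 1) λ(z)`. -/
noncomputable def ps (m : ℕ) : Polynomial ℚ := Polynomial.X * (Polynomial.X - 1) * lam m

theorem ps_eq (m : ℕ) (hm : 1 ≤ m) : ps m = Polynomial.C ((mu m).eval 1)⁻¹ * pz m := by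
  unfold ps lam
  rw [pz_eq m hm]
  ring

theorem ps_root (m : ℕ) (hm : 1 ≤ m) (a : Fin (m + 2)) : (ps m).eval (zr m a) = 0 := by
  rw [ps_eq m hm, Polynomial.eval_mul, pz_root, mul_zero]

theorem ps_der (m : ℕ) (hm : 1 ≤ m) (a : Fin (m + 2)) : (ps m).derivative.eval (zr m a) ≠ 0 := by
  rw [ps_eq m hm, Polynomial.derivative_C_mul, Polynomial.eval_mul, Polynomial.eval_C]
  exact mul_ne_zero (inv_ne_zero (mu_one_ne m)) (pz_der m a)

theorem ps_der_eval (m : ℕ) (z : ℚ) : (ps m).derivative.eval z =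
    (2 * z - 1) * (lam m).eval z + z * (z - 1) * (lam m).derivative.eval z := by
  unfold ps
  simp only [Polynomial.derivative_mul, Polynomial.derivative_X, Polynomial.derivative_sub, Polynomial.derivative_one,
    Polynomial.eval_add, Polynomial.eval_mul, Polynomial.eval_sub, Polynomial.eval_X, Polynomial.eval_one,
    Polynomial.eval_zero]
  ring

/-- `λ(0) = m / 2`. -/
theorem lam_zero (m : ℕ) (hm : 1 ≤ m) : (lam m).eval 0 = m / 2 := by
  have h : ∀ k : ℕ, (∏ b ∈ Finset.Icc 2 (k + 1), ((0 : ℚ) - b)) = (k + 1) * ∏ b ∈ Finset.Icc 2 (k + 1), ((1 : ℚ) - b) := by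
    intro k
    induction k with
    | zero => simp
    | succ k ih =>
      have e : ∀ f : ℕ → ℚ, ∏ b ∈ Finset.Icc 2 (k + 1 + 1), f b = (∏ b ∈ Finset.Icc 2 (k + 1), f b) * f (k + 1 + 1) :=
        fun f => Finset.prod_Icc_succ_top (by omega) f
      rw [e, e, ih]
      push_cast
      ring
  obtain ⟨k, rfl⟩ : ∃ k, m = k + 1 := ⟨m - 1, by omega⟩
  have h1 := mu_one_ne (k + 1)
  have h2 : (mu (k + 1)).eval 1 = 2 * ∏ b ∈ Finset.Icc 2 (k + 1), ((1 : ℚ) - b) := by
    unfold mu
    rw [Polynomial.eval_mul, Polynomial.eval_prod]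
    simp only [Polynomial.eval_add, Polynomial.eval_X, Polynomial.eval_one, Polynomial.eval_sub, Polynomial.eval_C]
    ring
  have h3 : (mu (k + 1)).eval 0 = ∏ b ∈ Finset.Icc 2 (k + 1), ((0 : ℚ) - b) := by
    unfold mu
    rw [Polynomial.eval_mul, Polynomial.eval_prod]
    simp only [Polynomial.eval_add, Polynomial.eval_X, Polynomial.eval_one, Polynomial.eval_sub, Polynomial.eval_C]
    ring
  unfold lam
  rw [Polynomial.eval_mul, Polynomial.eval_C, h3, h k]
  rw [h2] at h1 ⊢
  have h4 : ∏ b ∈ Finset.Icc 2 (k + 1), ((1 : ℚ) - b) ≠ 0 := right_ne_zero_of_mul h1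
  field_simp
  push_cast
  ring

/-- `λ'(-1) > 0`. -/
theorem lam_der (m : ℕ) : 0 < (lam m).derivative.eval (-1) := by
  have h2 : (mu m).eval 1 = 2 * ∏ b ∈ Finset.Icc 2 m, ((1 : ℚ) - b) := by
    unfold mu
    rw [Polynomial.eval_mul, Polynomial.eval_prod]
    simp only [Polynomial.eval_add, Polynomial.eval_X, Polynomial.eval_one, Polynomial.eval_sub, Polynomial.eval_C]
    ring
  have h3 : (mu m).derivative.eval (-1) = ∏ b ∈ Finset.Icc 2 m, ((-1 : ℚ) - b) := by
    unfold mu
    rw [Polynomial.derivative_mul, Polynomial.eval_add, Polynomial.eval_mul, Polynomial.eval_mul, Polynomial.eval_prod]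
    simp only [Polynomial.derivative_add, Polynomial.derivative_X, Polynomial.derivative_one, Polynomial.eval_add,
      Polynomial.eval_X, Polynomial.eval_one, Polynomial.eval_sub, Polynomial.eval_C, Polynomial.eval_zero]
    ring
  unfold lam
  rw [Polynomial.derivative_C_mul, Polynomial.eval_mul, Polynomial.eval_C, h2, h3, mul_inv, mul_assoc,
    ← Finset.prod_inv_distrib, ← Finset.prod_mul_distrib]
  refine mul_pos (by norm_num) (Finset.prod_pos fun b hb => ?_)
  rw [Finset.mem_Icc] at hb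
  have h4 : (2 : ℚ) ≤ b := by exact_mod_cast hb.1
  exact mul_pos_of_neg_of_neg (inv_neg''.2 (by linarith)) (by linarith)

theorem mu_monic (m : ℕ) : (mu m).Monic := by
  unfold mu
  refine Polynomial.Monic.mul ?_ (Polynomial.monic_prod_of_monic _ _ fun b _ => Polynomial.monic_X_sub_C _)
  have := Polynomial.monic_X_add_C (1 : ℚ)
  rwa [map_one] at this

theorem mu_deg (m : ℕ) (hm : 1 ≤ m) : (mu m).natDegree = m := by
  have h1 : (Polynomial.X + 1 : Polynomial ℚ).natDegree = 1 := by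
    have := Polynomial.natDegree_X_add_C (1 : ℚ)
    rwa [map_one] at this
  have h3 : (Polynomial.X + 1 : Polynomial ℚ).Monic := by
    have := Polynomial.monic_X_add_C (1 : ℚ)
    rwa [map_one] at this
  unfold mu
  rw [h3.natDegree_mul (Polynomial.monic_prod_of_monic _ _ fun b _ => Polynomial.monic_X_sub_C _), h1,
    Polynomial.natDegree_prod_of_monic _ _ fun b _ => Polynomial.monic_X_sub_C _]
  have h2 : ∑ b ∈ Finset.Icc 2 m, (Polynomial.X - Polynomial.C (b : ℚ)).natDegree = m + 1 - 2 := by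
    rw [Finset.sum_congr rfl fun (b : ℕ) _ => Polynomial.natDegree_X_sub_C (b : ℚ), Finset.sum_const, smul_eq_mul,
      mul_one, Nat.card_Icc]
  rw [h2]
  omega

theorem lam_coeff (m : ℕ) (hm : 1 ≤ m) : (lam m).coeff m ≠ 0 := by
  unfold lam
  rw [Polynomial.coeff_C_mul]
  have h : (mu m).coeff m = 1 := by
    have := (mu_monic m).coeff_natDegree
    rwa [mu_deg m hm] at this
  rw [h, mul_one]
  exact inv_ne_zero (mu_one_ne m)

theorem lam_coeff_succ (m : ℕ) (hm : 1 ≤ m) : (lam m).coeff (m + 1) = 0 := by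
  unfold lam
  rw [Polynomial.coeff_C_mul, Polynomial.coeff_eq_zero_of_natDegree_lt (by rw [mu_deg m hm]; omega), mul_zero]

end Pool.Agent.Helper60.HN
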