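import Mathlib
import Pool.Agent.Helper60.HN.ExPoly
import Pool.Agent.Helper23.HNG.Map

/-!
# The example: derivatives by dual numbers
-/

namespace Pool.Agent.Helper60.HN

open MvPolynomial Pool.Agent.Helper28.HN

/-- The dual number `a + b ε`. -/
def dl (a b : ℚ) : DualNumber ℚ := TrivSqZeroExt.inl a + TrivSqZeroExt.inr b

theorem dl_fst (a b : ℚ) : TrivSqZeroExt.fst (dl a b) = a := by simp [dl]

theorem dl_snd (a b : ℚ) : TrivSqZeroExt.snd (dl a b) = b := by simp [dl]

theorem dl_ext {x : DualNumber ℚ} {a b : ℚ} (h : TrivSqZeroExt.fst x = a) (h' : TrivSqZeroExt.snd x = b) :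
    x = dl a b := by
  refine TrivSqZeroExt.ext ?_ ?_
  · rw [dl_fst, h]
  · rw [dl_snd, h']

theorem dl_add (a b a' b' : ℚ) : dl a b + dl a' b' = dl (a + a') (b + b') :=
  dl_ext (by simp [dl_fst]) (by simp [dl_snd])

theorem dl_mul (a b a' b' : ℚ) : dl a b * dl a' b' = dl (a * a') (a * b' + b * a') :=
  dl_ext (by simp [dl_fst]) (by rw [DualNumber.snd_mul, dl_fst, dl_fst, dl_snd, dl_snd])

theorem dl_sub (a b a' b' : ℚ) : dl a b - dl a' b' = dl (a - a') (b - b') :=
  dl_ext (by simp [dl_fst]) (by simp [dl_snd])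

theorem dl_eq_zero {a b : ℚ} : dl a b = 0 ↔ a = 0 ∧ b = 0 := by
  constructor
  · intro h
    refine ⟨?_, ?_⟩
    · rw [← dl_fst a b, h]
      simp
    · rw [← dl_snd a b, h]
      simp
  · rintro ⟨rfl, rfl⟩
    simp [dl]

theorem dl_cast (a : ℚ) : algebraMap ℚ (DualNumber ℚ) a = dl a 0 := by
  refine dl_ext ?_ ?_
  · rw [TrivSqZeroExt.algebraMap_eq_inl]
    rfl
  · rw [TrivSqZeroExt.algebraMap_eq_inl]
    rfl

theorem dl_one : (1 : DualNumber ℚ) = dl 1 0 := by
  rw [← dl_cast, map_one]

theorem dl_nat (n : ℕ) [n.AtLeastTwo] : (OfNat.ofNat n : DualNumber ℚ) = dl (OfNat.ofNat n) 0 := by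
  rw [← dl_cast, map_ofNat]

/-- Taylor expansion of a polynomial. -/
theorem aeval_dl {σ : Type*} [Fintype σ] (a v : σ → ℚ) (P : MvPolynomial σ ℚ) :
    aeval (fun s => dl (a s) (v s)) P = dl (eval a P) (∑ s, v s * eval a (pderiv s P)) := by
  classical
  induction P using MvPolynomial.induction_on with
  | C r =>
    rw [algHom_C, dl_cast, eval_C]
    congr 1
    refine (Finset.sum_eq_zero fun s _ => ?_).symm
    rw [pderiv_C, map_zero, mul_zero]
  | add P Q hP hQ =>
    rw [map_add, hP, hQ, dl_add, map_add, ← Finset.sum_add_distrib]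
    congr 1
    refine Finset.sum_congr rfl fun s _ => ?_
    rw [map_add, map_add, mul_add]
  | mul_X P i hP =>
    rw [map_mul, hP, aeval_X, dl_mul, map_mul, eval_X]
    congr 1
    have h : ∀ s, v s * eval a (pderiv s (P * X i)) = v s * eval a (pderiv s P) * a i +
        if s = i then eval a P * v i else 0 := by
      intro s
      rw [Derivation.leibniz, pderiv_X, smul_eq_mul, smul_eq_mul, map_add, map_mul, map_mul, eval_X]
      by_cases h1 : s = i
      · subst h1
        rw [Pi.single_eq_same, if_pos rfl, map_one]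
        ring
      · rw [if_neg h1, Pi.single_eq_of_ne (Ne.symm h1), map_zero]
        ring
    rw [Finset.sum_congr rfl fun s _ => h s, Finset.sum_add_distrib, Finset.sum_ite_eq' Finset.univ i,
      if_pos (Finset.mem_univ _), ← Finset.sum_mul]
    ring

theorem dl_pow (a b : ℚ) (n : ℕ) : dl a b ^ n = dl (a ^ n) (n * a ^ (n - 1) * b) := by
  induction n with
  | zero =>
    rw [pow_zero, dl_one]
    simp
  | succ n ih =>
    rw [pow_succ, ih, dl_mul, ← pow_succ]
    congr 1
    rcases Nat.eq_zero_or_pos n with rfl | hn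
    · simp
    · obtain ⟨k, rfl⟩ : ∃ k, n = k + 1 := ⟨n - 1, by omega⟩
      simp only [Nat.add_sub_cancel]
      push_cast
      ring

/-- Taylor expansion of `λ`. -/
theorem lm_dl (m : ℕ) (a b : ℚ) : lm m (dl a b) = dl ((lam m).eval a) (b * (lam m).derivative.eval a) := by
  have h : ∀ p : Polynomial ℚ, Polynomial.aeval (dl a b) p = dl (p.eval a) (b * p.derivative.eval a) := by
    intro p
    induction p using Polynomial.induction_on' with
    | add p q hp hq =>
      rw [map_add, hp, hq, dl_add, Polynomial.eval_add, Polynomial.derivative_add, Polynomial.eval_add]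
      congr 1
      ring
    | monomial n r =>
      rw [Polynomial.aeval_monomial, dl_cast]
      rw [dl_pow, dl_mul, Polynomial.eval_monomial, Polynomial.derivative_monomial, Polynomial.eval_monomial]
      congr 1
      ring
  exact h (lam m)

/-- Naturality of the system. -/
theorem map_Eqn {m : ℕ} {S S' : Type*} [CommRing S] [CommRing S'] (f : S →+* S') (c : Ix m → S) (k : Un m → S)
    (i : En m) : f (Eqn c k i) = Eqn (fun e => f (c e)) (fun a => f (k a)) i := by
  have haff : ∀ u : Fin (m + 1) → S, (fun i => f (aff u i)) = aff fun i => f (u i) := fun u =>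
    funext fun i => Pool.Agent.Helper23.HNG.map_aff f u i
  rcases i with a | i | i
  · show f (psh c _ _) = psh _ _ _
    rw [Pool.Agent.Helper23.HNG.map_psh, haff]
  · fin_cases i
    · show f (kah c _ _) = kah _ _ _
      rw [Pool.Agent.Helper23.HNG.map_kah, haff]
    · show f (Fh c _ _) = Fh _ _ _
      rw [Pool.Agent.Helper23.HNG.map_Fh, haff]
    · show f (Ah c _) = Ah _ _
      rw [Pool.Agent.Helper23.HNG.map_Ah, haff]
    · show f (Bh c _) = Bh _ _
      rw [Pool.Agent.Helper23.HNG.map_Bh, haff]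
    · show f (qh c _ _ _) = qh _ _ _ _
      rw [Pool.Agent.Helper23.HNG.map_qh, haff]
      congr 1
      funext i
      exact Pool.Agent.Helper23.HNG.map_xz f c _ _ i
  · rfl

end Pool.Agent.Helper60.HN
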