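import Mathlib
import Pool.Agent.Helper60.HN.ExDual

/-!
# The example: the Jacobian of the square system is invertible
-/

namespace Pool.Agent.Helper60.HN

open MvPolynomial Pool.Agent.Helper28.HN

/-- The coordinate number `j` of the affine point. -/
theorem aff_ix {m : ℕ} {S : Type*} [CommRing S] (u : Fin (m + 1) → S) {j : ℕ} (h1 : 1 ≤ j) (h2 : j ≤ m + 1) :
    aff u (ix m j) = u ⟨j - 1, by omega⟩ := by
  have h3 : ix m j = (⟨j - 1, by omega⟩ : Fin (m + 1)).succ := by
    rw [ix_eq h2]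
    refine Fin.ext ?_
    simp
    omega
  rw [h3]
  rfl

theorem dl_two : (2 : DualNumber ℚ) = dl 2 0 := by rw [← dl_cast, map_ofNat]

theorem dl_four : (4 : DualNumber ℚ) = dl 4 0 := by rw [← dl_cast, map_ofNat]

theorem dl_eight : (8 : DualNumber ℚ) = dl 8 0 := by rw [← dl_cast, map_ofNat]

theorem li_dl {m : ℕ} (hm : 1 ≤ m) (v : Fin (m + 1) → ℚ) :
    li (La m) (aff (fun i => dl 0 (v i)) : I m → DualNumber ℚ) =
      dl 0 (∑ i : Fin (m + 1), (lam m).coeff (m - i.val) * v i) := by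
  unfold li
  rw [Fin.sum_univ_succ]
  have h0 : La m 0 = 0 := by
    unfold La
    exact lam_coeff_succ m hm
  rw [h0, map_zero, zero_mul, zero_add]
  have h1 : ∀ i : Fin (m + 1), algebraMap ℚ (DualNumber ℚ) (La m i.succ) *
      (aff (fun i => dl 0 (v i)) : I m → DualNumber ℚ) i.succ = dl 0 ((lam m).coeff (m - i.val) * v i) := by
    intro i
    have h2 : (aff (fun i => dl 0 (v i)) : I m → DualNumber ℚ) i.succ = dl 0 (v i) := rfl
    have h3 : m + 1 - i.succ.val = m - i.val := by simp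
    rw [h2, dl_cast, dl_mul]
    unfold La
    rw [h3]
    congr 1 <;> ring
  rw [Finset.sum_congr rfl fun i _ => h1 i]
  refine dl_ext ?_ ?_
  · rw [TrivSqZeroExt.fst_sum]
    exact Finset.sum_eq_zero fun i _ => dl_fst _ _
  · rw [TrivSqZeroExt.snd_sum]
    exact Finset.sum_congr rfl fun i _ => dl_snd _ _

/-- The derivative of the system is injective. -/
theorem jac_zero {m : ℕ} (hm : 4 ≤ m) (v : Un m → ℚ)
    (h : ∀ i : En m, Eqn (cS m (DualNumber ℚ)) (fun j => dl (k0 m j) (v j)) i = 0) : v = 0 := by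
  obtain ⟨u, hu⟩ : ∃ u : Fin (m + 1) → ℚ, u = fun i => v (.inl i) := ⟨_, rfl⟩
  obtain ⟨x, hx⟩ : ∃ x : I m → DualNumber ℚ, x = aff (fun i => dl 0 (u i)) := ⟨_, rfl⟩
  have hx' : (aff fun i => dl (k0 m (.inl i)) (v (.inl i)) : I m → DualNumber ℚ) = x := by
    rw [hx, hu]
    rfl
  have hx0 : x 0 = 1 := by rw [hx]; rfl
  obtain ⟨L, hL⟩ : ∃ L : ℚ, L = ∑ i : Fin (m + 1), (lam m).coeff (m - i.val) * u i := ⟨_, rfl⟩
  have hli : li (La m) x = dl 0 L := by
    rw [hx, li_dl (by omega), hL]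
  have e1 : x (ix m (m + 1)) = dl 0 (u ⟨m, by omega⟩) := by
    rw [hx, aff_ix _ (by omega) le_rfl]
    rfl
  have e2 : x (ix m m) = dl 0 (u ⟨m - 1, by omega⟩) := by
    rw [hx, aff_ix _ (by omega) (by omega)]
  have e3 : x (ix m 3) = dl 0 (u ⟨2, by omega⟩) := by
    rw [hx, aff_ix _ (by omega) (by omega)]
  have e4 : x (ix m 2) = dl 0 (u ⟨1, by omega⟩) := by
    rw [hx, aff_ix _ (by omega) (by omega)]
  have hm2 : 2 ≤ m := by omega
  -- the equation of `Fh`
  have f1 : u ⟨m - 1, by omega⟩ = 0 := by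
    have h1 : Fh (cS m (DualNumber ℚ)) _ (dl (k0 m (.inr 0)) (v (.inr 0))) = 0 := h (.inr (.inl 1))
    rw [hx', Fh_ex hm2 x hx0, hli, e1, e2, e3, e4, k0_inr, zr_zero] at h1
    simp only [dl_mul, dl_add, dl_sub, dl_one, dl_two, dl_four, dl_pow] at h1
    have h2 := (dl_eq_zero.1 h1).2
    simp at h2
    exact h2
  -- the equation of `Ah`
  have f2 : L = 0 := by
    have h1 : Ah (cS m (DualNumber ℚ)) _ = 0 := h (.inr (.inl 2))
    rw [hx', Ah_ex hm2 x hx0, hli, e1] at h1
    simp only [dl_mul, dl_add, dl_sub, dl_one, dl_two, dl_four, dl_pow] at h1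
    have h2 := (dl_eq_zero.1 h1).2
    simp at h2
    exact h2
  -- the equation of `Bh`
  have f3 : u ⟨m, by omega⟩ = 0 := by
    have h1 : Bh (cS m (DualNumber ℚ)) _ = 0 := h (.inr (.inl 3))
    rw [hx', Bh_ex hm2 x hx0, hli, e1, e3, f2] at h1
    simp only [dl_mul, dl_add, dl_sub, dl_one, dl_two, dl_four, dl_pow] at h1
    have h2 := (dl_eq_zero.1 h1).2
    simp at h2
    exact h2
  -- the equation of `kah`
  have f4 : u ⟨1, by omega⟩ = 0 := by
    have h1 : kah (cS m (DualNumber ℚ)) _ (dl (k0 m (.inr 0)) (v (.inr 0))) = 0 := h (.inr (.inl 0))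
    rw [hx', kah_ex hm2 x hx0, e3, e4, k0_inr, zr_zero] at h1
    simp only [dl_mul, dl_add, dl_sub, dl_one, dl_two, dl_four, dl_eight, dl_pow] at h1
    have h2 := (dl_eq_zero.1 h1).2
    have h3 : (0 : ℚ) ^ (m - 2) = 0 := zero_pow (by omega)
    have h4 : (0 : ℚ) ^ (m - 2 - 1) = 0 := zero_pow (by omega)
    rw [h3, h4] at h2
    simp at h2
    exact h2
  -- the equations of `psh`
  have f5 : ∀ a : Fin (m + 2), (ps m).derivative.eval (zr m a) * v (.inr a) +
      2 * u ⟨2, by omega⟩ * (zr m a - 1) = 0 := by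
    intro a
    have h1 : psh (cS m (DualNumber ℚ)) _ (dl (k0 m (.inr a)) (v (.inr a))) = 0 := h (.inl a)
    rw [hx', psh_ex hm2 x hx0, e1, e3, e4, k0_inr, lm_dl, f3] at h1
    simp only [dl_mul, dl_add, dl_sub, dl_one, dl_two, dl_four, dl_pow] at h1
    have h2 := (dl_eq_zero.1 h1).2
    rw [ps_der_eval]
    linear_combination (1 / 2) * h2
  -- the equation of `qh`
  have f6 : v (.inr (Fin.last (m + 1))) - v (.inr 1) - 3 * v (.inr (Fin.last (m + 1))) +
      2 * (lam m).derivative.eval 1 * v (.inr 1) - 4 * u ⟨2, by omega⟩ = 0 := by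
    have h1 : qh (cS m (DualNumber ℚ)) _ (xz (cS m (DualNumber ℚ)) _ (dl (k0 m (.inr 1)) (v (.inr 1))))
      (dl (k0 m (.inr (Fin.last (m + 1)))) (v (.inr (Fin.last (m + 1))))) = 0 := h (.inr (.inl 4))
    obtain ⟨t, ht⟩ := qh_ex hm2 (fun i => dl (k0 m (.inl i)) (v (.inl i))) (dl (k0 m (.inr 1)) (v (.inr 1)))
      (dl (k0 m (.inr (Fin.last (m + 1)))) (v (.inr (Fin.last (m + 1)))))
    obtain ⟨t1, t2, rfl⟩ : ∃ t1 t2, t = dl t1 t2 := ⟨_, _, dl_ext rfl rfl⟩
    rw [ht, hx', e1, e3, e4, k0_inr, k0_inr, lm_dl, f3, zr_last, zr_one m (by omega), lam_one] at h1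
    simp only [dl_mul, dl_add, dl_sub, dl_one, dl_two, dl_four, dl_eight, dl_pow] at h1
    have h2 := (dl_eq_zero.1 h1).2
    linear_combination (1 / 4) * h2
  -- the conclusion
  have g1 : v (.inr 1) = 0 := by
    have h1 := f5 1
    rw [zr_one m (by omega)] at h1
    have h2 := ps_der m (by omega) 1
    rw [zr_one m (by omega)] at h2
    have h3 : (ps m).derivative.eval 1 * v (.inr 1) = 0 := by linear_combination h1
    exact (mul_eq_zero.1 h3).resolve_left h2
  have g2 : u ⟨2, by omega⟩ = 0 := by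
    have h1 := f5 (Fin.last (m + 1))
    have h2 := lam_der m
    have h3 : (lam m).eval (-1) = 0 := by
      have := lam_root m (by omega) (a := Fin.last (m + 1)) (by rw [zr_last]; norm_num) (by rw [zr_last]; norm_num)
      rwa [zr_last] at this
    rw [zr_last, ps_der_eval, h3] at h1
    rw [g1] at f6
    have h4 : u ⟨2, by omega⟩ * ((lam m).derivative.eval (-1) + 1) = 0 := by
      linear_combination -(1 / 4) * h1 - (1 / 4) * (lam m).derivative.eval (-1) * f6
    exact (mul_eq_zero.1 h4).resolve_right (by linarith)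
  have g3 : ∀ i : Fin (m + 1), i.val ≠ 0 → u i = 0 := by
    intro i hi
    by_cases h1 : 3 ≤ i.val ∧ i.val + 2 ≤ m
    · have h2 : dl (k0 m (.inl i)) (v (.inl i)) = 0 := h (.inr (.inr ⟨i, h1⟩))
      rw [hu]
      exact (dl_eq_zero.1 h2).2
    · have h2 := i.isLt
      have h3 : i.val = 1 ∨ i.val = 2 ∨ i.val = m - 1 ∨ i.val = m := by omega
      rcases h3 with h3 | h3 | h3 | h3
      · have : i = ⟨1, by omega⟩ := Fin.ext h3
        rw [this, f4]
      · have : i = ⟨2, by omega⟩ := Fin.ext h3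
        rw [this, g2]
      · have : i = ⟨m - 1, by omega⟩ := Fin.ext h3
        rw [this, f1]
      · have : i = ⟨m, by omega⟩ := Fin.ext h3
        rw [this, f3]
  have g4 : u 0 = 0 := by
    rw [hL, Finset.sum_eq_single 0] at f2
    · have h1 : m - (0 : Fin (m + 1)).val = m := by simp
      rw [h1] at f2
      exact (mul_eq_zero.1 f2).resolve_left (lam_coeff m (by omega))
    · intro i _ hi
      rw [g3 i fun h => hi (Fin.ext h), mul_zero]
    · intro h
      exact absurd (Finset.mem_univ _) h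
  have g5 : ∀ i, u i = 0 := by
    intro i
    by_cases hi : i.val = 0
    · have : i = 0 := Fin.ext hi
      rw [this, g4]
    · exact g3 i hi
  funext j
  rcases j with i | a
  · have := g5 i
    rw [hu] at this
    exact this
  · have h1 := f5 a
    rw [g2] at h1
    have h3 : (ps m).derivative.eval (zr m a) * v (.inr a) = 0 := by linear_combination h1
    exact (mul_eq_zero.1 h3).resolve_left (ps_der m (by omega) a)

end Pool.Agent.Helper60.HN
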