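import Mathlib
import Pool.Agent.Helper60.HN.ExJac

/-!
# The example: the point lies on the system, nothing degenerates, the Jacobian is invertible
-/

namespace Pool.Agent.Helper60.HN

open MvPolynomial Pool.Agent.Helper28.HN

theorem cS_rat (m : ℕ) : cS m ℚ = c0 m := rfl

theorem aff_zero_ix {m : ℕ} {S : Type*} [CommRing S] {j : ℕ} (h1 : 1 ≤ j) (h2 : j ≤ m + 1) :
    (aff (0 : Fin (m + 1) → S) : I m → S) (ix m j) = 0 := by
  rw [aff_ix _ h1 h2]
  rfl

theorem li_zero {m : ℕ} (hm : 1 ≤ m) : li (La m) (aff (0 : Fin (m + 1) → ℚ) : I m → ℚ) = 0 := by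
  unfold li
  rw [Fin.sum_univ_succ]
  have h0 : La m 0 = 0 := by
    unfold La
    exact lam_coeff_succ m hm
  rw [h0, map_zero, zero_mul, zero_add]
  refine Finset.sum_eq_zero fun i _ => ?_
  have h2 : (aff (0 : Fin (m + 1) → ℚ) : I m → ℚ) i.succ = 0 := rfl
  rw [h2, mul_zero]

theorem k0_inl (m : ℕ) : (fun i => k0 m (.inl i)) = 0 := rfl

theorem lm_rat (m : ℕ) (z : ℚ) : lm m z = (lam m).eval z := by
  unfold lm
  rw [Polynomial.coe_aeval_eq_eval]

theorem psh_zero {m : ℕ} (hm : 2 ≤ m) (z : ℚ) : psh (c0 m) (aff 0) z = 2 * (ps m).eval z := by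
  rw [← cS_rat, psh_ex hm _ rfl, aff_zero_ix (by omega) le_rfl, aff_zero_ix (by omega) (by omega),
    aff_zero_ix (by omega) (by omega), lm_rat]
  unfold ps
  simp

theorem kah_zero {m : ℕ} (hm : 2 ≤ m) (z : ℚ) :
    kah (c0 m) (aff 0) z = 4 * z ^ 2 + 8 * (z ^ (m - 2) * (z - 1)) := by
  rw [← cS_rat, kah_ex hm _ rfl, aff_zero_ix (by omega) (by omega), aff_zero_ix (by omega) (by omega)]
  ring

theorem qh_zero {m : ℕ} (hm : 2 ≤ m) (s z : ℚ) :
    qh (c0 m) (aff 0) (xz (c0 m) 0 s) z = 4 * (z - s + z * (z - 1) * (lam m).eval s) := by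
  obtain ⟨t, ht⟩ := qh_ex hm (0 : Fin (m + 1) → ℚ) s z
  rw [cS_rat, aff_zero_ix (by omega) le_rfl, aff_zero_ix (by omega) (by omega), lm_rat] at ht
  rw [ht]
  ring

/-- The point is a solution. -/
theorem ex_eqn {m : ℕ} (hm : 4 ≤ m) (i : En m) : Eqn (c0 m) (k0 m) i = 0 := by
  have hm2 : 2 ≤ m := by omega
  rcases i with a | i | i
  · show psh (c0 m) (aff fun i => k0 m (.inl i)) (k0 m (.inr a)) = 0
    rw [k0_inl, psh_zero hm2, k0_inr, ps_root m (by omega), mul_zero]
  · fin_cases i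
    · show kah (c0 m) (aff fun i => k0 m (.inl i)) (k0 m (.inr 0)) = 0
      have h3 : (0 : ℚ) ^ (m - 2) = 0 := zero_pow (by omega)
      rw [k0_inl, kah_zero hm2, k0_inr, zr_zero, h3]
      ring
    · show Fh (c0 m) (aff fun i => k0 m (.inl i)) (k0 m (.inr 0)) = 0
      rw [k0_inl, ← cS_rat, Fh_ex hm2 _ rfl, li_zero (by omega), aff_zero_ix (by omega) le_rfl,
        aff_zero_ix (by omega) (by omega)]
      ring
    · show Ah (c0 m) (aff fun i => k0 m (.inl i)) = 0
      rw [k0_inl, ← cS_rat, Ah_ex hm2 _ rfl, li_zero (by omega), aff_zero_ix (by omega) le_rfl]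
      ring
    · show Bh (c0 m) (aff fun i => k0 m (.inl i)) = 0
      rw [k0_inl, ← cS_rat, Bh_ex hm2 _ rfl, li_zero (by omega), aff_zero_ix (by omega) le_rfl]
      ring
    · show qh (c0 m) (aff fun i => k0 m (.inl i)) (xz (c0 m) (fun i => k0 m (.inl i)) (k0 m (.inr 1)))
        (k0 m (.inr (Fin.last (m + 1)))) = 0
      rw [k0_inl, qh_zero hm2, k0_inr, k0_inr, zr_last, zr_one m (by omega), lam_one]
      norm_num
  · rfl

theorem qh_ne {m : ℕ} (hm : 2 ≤ m) (a b : Fin (m + 2)) (h : ¬ (a = b ∨ (a = 1 ∧ b = Fin.last (m + 1)))) :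
    qh (c0 m) (aff 0) (xz (c0 m) 0 (zr m a)) (zr m b) ≠ 0 := by
  rw [not_or, not_and] at h
  obtain ⟨hab, h1⟩ := h
  rw [qh_zero hm]
  refine mul_ne_zero (by norm_num) ?_
  by_cases ha0 : a = 0
  · have hb : zr m b ≠ 0 := by
      intro h2
      exact hab (zr_inj m (by rw [ha0, zr_zero, h2]))
    rw [ha0, zr_zero, lam_zero m (by omega)]
    have h3 : zr m b * (1 + (zr m b - 1) * (m / 2)) ≠ 0 := by
      refine mul_ne_zero hb ?_
      have hmq : (2 : ℚ) ≤ m := by exact_mod_cast hm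
      rcases Fin.eq_castSucc_or_eq_last b with ⟨c, rfl⟩ | rfl
      · rw [zr_cast] at hb ⊢
        have h4 : (1 : ℚ) ≤ c.val := by
          have : c.val ≠ 0 := fun h => hb (by rw [h]; simp)
          exact_mod_cast Nat.one_le_iff_ne_zero.2 this
        have h5 : (0 : ℚ) ≤ (c.val - 1) * (m / 2) := mul_nonneg (by linarith) (by linarith)
        linarith
      · rw [zr_last]
        intro h6
        have h7 : (m : ℚ) = 1 := by linarith
        linarith
    intro h4
    exact h3 (by linear_combination h4)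
  · have hz0 : zr m a ≠ 0 := by
      intro h2
      exact ha0 (zr_inj m (by rw [h2, zr_zero]))
    by_cases ha1 : a = 1
    · rw [ha1, zr_one m (by omega), lam_one]
      have h2 : zr m b ≠ 1 := by
        intro h3
        exact hab (zr_inj m (by rw [ha1, zr_one m (by omega), h3]))
      have h3 : zr m b ≠ -1 := by
        intro h4
        exact h1 ha1 (zr_inj m (by rw [zr_last, h4]))
      have h4 : (zr m b - 1) * (zr m b + 1) ≠ 0 := mul_ne_zero (sub_ne_zero.2 h2) (by
        intro h5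
        exact h3 (by linarith))
      intro h5
      exact h4 (by linear_combination h5)
    · have hz1 : zr m a ≠ 1 := by
        intro h2
        exact ha1 (zr_inj m (by rw [h2, zr_one m (by omega)]))
      rw [lam_root m (by omega) hz0 hz1, mul_zero, add_zero]
      intro h2
      exact hab (zr_inj m (by linarith))

theorem kah_ne {m : ℕ} (hm : 2 ≤ m) (a : Fin (m + 1)) : kah (c0 m) (aff 0) (zr m a.succ) ≠ 0 := by
  rw [kah_zero hm]
  rcases Fin.eq_castSucc_or_eq_last a.succ with ⟨c, hc⟩ | hc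
  · rw [hc, zr_cast]
    have h1 : 1 ≤ c.val := by
      have := congrArg Fin.val hc
      simp at this
      omega
    have h2 : (1 : ℚ) ≤ c.val := by exact_mod_cast h1
    have h3 : (0 : ℚ) ≤ (c.val : ℚ) ^ (m - 2) * (c.val - 1) := mul_nonneg (by positivity) (by linarith)
    have h4 : (0 : ℚ) < (c.val : ℚ) ^ 2 := by positivity
    intro h5
    linarith
  · rw [hc, zr_last]
    rcases neg_one_pow_eq_or ℚ (m - 2) with h | h
    · rw [h]
      norm_num
    · rw [h]
      norm_num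

theorem psP_ex {m : ℕ} (hm : 2 ≤ m) : psP (c0 m) (aff 0) = 2 * ps m := by
  have h0 : (fun i => Polynomial.C ((aff (0 : Fin (m + 1) → ℚ) : I m → ℚ) i)) =
      (aff (0 : Fin (m + 1) → Polynomial ℚ) : I m → Polynomial ℚ) := by
    funext i
    refine Fin.cases ?_ (fun j => ?_) i
    · show Polynomial.C 1 = (1 : Polynomial ℚ)
      rw [map_one]
    · show Polynomial.C 0 = (0 : Polynomial ℚ)
      rw [map_zero]
  have h1 : (fun e => Polynomial.C (c0 m e)) = cS m (Polynomial ℚ) := rfl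
  unfold psP
  rw [h0, h1, psh_ex hm _ rfl, aff_zero_ix (by omega) le_rfl, aff_zero_ix (by omega) (by omega),
    aff_zero_ix (by omega) (by omega)]
  unfold lm ps
  rw [Polynomial.aeval_X_left_apply]
  ring

theorem Vm_ex (m : ℕ) : (Vm (c0 m) (k0 m)).det ≠ 0 := by
  have h : Vm (c0 m) (k0 m) = (Matrix.vandermonde fun a : Fin (m + 1) => zr m a.succ).submatrix id Fin.revPerm := by
    ext a i
    show vh (c0 m) (yh (c0 m) (aff fun i => k0 m (.inl i)) (k0 m (.inr a.succ))) i = _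
    rw [← cS_rat, vh_ex _ (yh_zero _ rfl _), yh_one _ rfl]
    rw [Matrix.submatrix_apply, Matrix.vandermonde_apply, k0_inr]
    show zr m a.succ ^ (m - i.val) = zr m a.succ ^ (Fin.rev i).val
    rw [Fin.val_rev]
    congr 1
    omega
  rw [h, Matrix.det_permute']
  refine mul_ne_zero ?_ ?_
  · rcases Int.units_eq_one_or (Equiv.Perm.sign (Fin.revPerm : Equiv.Perm (Fin (m + 1)))) with h1 | h1
    · rw [h1]
      norm_num
    · rw [h1]
      norm_num
  · rw [Matrix.det_vandermonde_ne_zero_iff]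
    exact (zr_inj m).comp (Fin.succ_injective _)

/-- Nothing degenerates. -/
theorem ex_pp {m : ℕ} (hm : 4 ≤ m) : Pp (c0 m) (k0 m) ≠ 0 := by
  have hm2 : 2 ≤ m := by omega
  unfold Pp
  rw [k0_inl]
  refine mul_ne_zero (mul_ne_zero (mul_ne_zero (mul_ne_zero (mul_ne_zero (mul_ne_zero ?_ ?_) ?_) ?_) ?_) ?_) ?_
  · rw [← cS_rat, Mx_ex _ rfl, Matrix.det_one]
    exact one_ne_zero
  · refine Finset.prod_ne_zero_iff.2 fun a _ => Finset.prod_ne_zero_iff.2 fun b _ => ?_
    split_ifs with h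
    · exact one_ne_zero
    · exact sub_ne_zero.2 fun h1 => h (zr_inj m h1)
  · refine Finset.prod_ne_zero_iff.2 fun a _ => ?_
    rw [← cS_rat, det_Nx _ (yh_zero _ rfl _)]
    exact one_ne_zero
  · exact Finset.prod_ne_zero_iff.2 fun a _ => kah_ne hm2 a
  · refine Finset.prod_ne_zero_iff.2 fun a _ => ?_
    rw [psP_ex hm2, Polynomial.derivative_mul]
    simp only [Polynomial.derivative_ofNat, zero_mul, zero_add, Polynomial.eval_mul, Polynomial.eval_ofNat]
    exact mul_ne_zero (by norm_num) (ps_der m (by omega) a)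
  · refine Finset.prod_ne_zero_iff.2 fun a _ => Finset.prod_ne_zero_iff.2 fun b _ => ?_
    split_ifs with h
    · exact one_ne_zero
    · exact qh_ne hm2 a b h
  · exact Vm_ex m

/-- The Jacobian of the square system is invertible. -/
theorem ex_jac {m : ℕ} (hm : 4 ≤ m) (e : Un m ≃ En m) :
    (Matrix.of fun i j => eval (Sum.elim (c0 m) (k0 m)) (pderiv (Sum.inr j)
      (Eqn (fun e => X (Sum.inl e)) (fun j => X (Sum.inr j)) (e i) : MvPolynomial (Ix m ⊕ Un m) ℚ))).det ≠ 0 := by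
  intro h0
  obtain ⟨v, hv, hv0⟩ := Matrix.exists_mulVec_eq_zero_iff.2 h0
  refine hv (jac_zero hm v fun i => ?_)
  obtain ⟨j, rfl⟩ := e.surjective i
  have h1 := aeval_dl (Sum.elim (c0 m) (k0 m)) (Sum.elim (0 : Ix m → ℚ) v)
    (Eqn (fun e => X (Sum.inl e)) (fun j => X (Sum.inr j)) (e j) : MvPolynomial (Ix m ⊕ Un m) ℚ)
  have h2 : (aeval (fun s => dl (Sum.elim (c0 m) (k0 m) s) (Sum.elim (0 : Ix m → ℚ) v s)))
      (Eqn (fun e => X (Sum.inl e)) (fun j => X (Sum.inr j)) (e j) : MvPolynomial (Ix m ⊕ Un m) ℚ) =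
      Eqn (cS m (DualNumber ℚ)) (fun j => dl (k0 m j) (v j)) (e j) := by
    have h3 := map_Eqn (aeval (R := ℚ) (fun s => dl (Sum.elim (c0 m) (k0 m) s) (Sum.elim (0 : Ix m → ℚ) v s)) :
      MvPolynomial (Ix m ⊕ Un m) ℚ →ₐ[ℚ] DualNumber ℚ).toRingHom
      (fun e => X (Sum.inl e)) (fun j => X (Sum.inr j)) (e j)
    refine h3.trans ?_
    congr 1
    · funext s
      show aeval _ (X (Sum.inl s)) = _
      rw [aeval_X]
      show dl (c0 m s) 0 = algebraMap ℚ (DualNumber ℚ) (c0 m s)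
      rw [dl_cast]
    · funext s
      show aeval _ (X (Sum.inr s)) = _
      rw [aeval_X]
      rfl
  have h4 : (eval (Sum.elim (c0 m) (k0 m)))
      (Eqn (fun e => X (Sum.inl e)) (fun j => X (Sum.inr j)) (e j) : MvPolynomial (Ix m ⊕ Un m) ℚ) = 0 := by
    have h5 := map_Eqn (eval (Sum.elim (c0 m) (k0 m)))
      (fun e => X (Sum.inl e)) (fun j => X (Sum.inr j)) (e j)
    rw [h5]
    have h6 : (fun s => (eval (Sum.elim (c0 m) (k0 m))) (X (Sum.inl s) : MvPolynomial (Ix m ⊕ Un m) ℚ)) = c0 m := by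
      funext s
      rw [eval_X]
      rfl
    have h7 : (fun s => (eval (Sum.elim (c0 m) (k0 m))) (X (Sum.inr s) : MvPolynomial (Ix m ⊕ Un m) ℚ)) = k0 m := by
      funext s
      rw [eval_X]
      rfl
    rw [h6, h7]
    exact ex_eqn hm (e j)
  have h5 : (∑ s : Ix m ⊕ Un m, Sum.elim (0 : Ix m → ℚ) v s * (eval (Sum.elim (c0 m) (k0 m))) (pderiv s
      (Eqn (fun e => X (Sum.inl e)) (fun j => X (Sum.inr j)) (e j) : MvPolynomial (Ix m ⊕ Un m) ℚ))) = 0 := by
    rw [Fintype.sum_sum_type]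
    have h6 : ∀ s : Ix m, Sum.elim (0 : Ix m → ℚ) v (.inl s) * (eval (Sum.elim (c0 m) (k0 m))) (pderiv (.inl s)
      (Eqn (fun e => X (Sum.inl e)) (fun j => X (Sum.inr j)) (e j) : MvPolynomial (Ix m ⊕ Un m) ℚ)) = 0 := by
      intro s
      show (0 : ℚ) * _ = 0
      rw [zero_mul]
    rw [Finset.sum_eq_zero fun s _ => h6 s, zero_add]
    have h7 := congrFun hv0 j
    rw [Matrix.mulVec, dotProduct] at h7
    rw [← show _ = (0 : ℚ) from h7]
    refine Finset.sum_congr rfl fun s _ => ?_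
    show v s * _ = _ * v s
    rw [mul_comm]
    rfl
  rw [← h2, h1, h4, h5]
  exact dl_eq_zero.2 ⟨rfl, rfl⟩

end Pool.Agent.Helper60.HN
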